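import Mathlib
import Pool.Agent.helper18.Rot.Defs

/-!
# Module iso of MP_1ac403_an (helper18): the isotopy `f_t(p) = psi (t * tau p) p`
-/

open Topology Filter Set
open scoped unitInterval

namespace Pool.Agent.helper9.Rot

open Pool.Agent.helper18.Rot
open Pool.Agent.helper18.Rot.Par

variable (P : Par)

/-! ### Elementary facts -/

theorem norm_coe_le (u : ℝ) : ‖(u : UnitAddCircle)‖ ≤ |u| := by
  rw [UnitAddCircle.norm_eq]
  exact round_le u 0 |>.trans (by simp)

theorem tent_lip (q : UnitAddCircle) (v : ℝ) :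
    |tent (q + (v : UnitAddCircle)) - tent q| ≤ |v| := by
  unfold tent
  have h := abs_norm_sub_norm_le (q - ((1 / 4 : ℝ) : UnitAddCircle))
    (q + (v : UnitAddCircle) - ((1 / 4 : ℝ) : UnitAddCircle))
  have h2 : (q - ((1 / 4 : ℝ) : UnitAddCircle)) -
    (q + (v : UnitAddCircle) - ((1 / 4 : ℝ) : UnitAddCircle)) = -(v : UnitAddCircle) := by abel
  rw [h2, norm_neg] at h
  have h3 := norm_coe_le v
  calc _ = |‖q - ((1 / 4 : ℝ) : UnitAddCircle)‖ -
      ‖q + (v : UnitAddCircle) - ((1 / 4 : ℝ) : UnitAddCircle)‖| := by congr 1; ring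
    _ ≤ _ := h.trans h3

theorem dl_lip' (i : Fin 2) (x : UnitAddCircle) (u : ℝ) :
    |P.dl i (x + (u : UnitAddCircle)) - P.dl i x| ≤ |u| := by
  unfold dl
  have h := abs_norm_sub_norm_le (x + (u : UnitAddCircle) - (P.c i : UnitAddCircle))
    (x - (P.c i : UnitAddCircle))
  have h2 : (x + (u : UnitAddCircle) - (P.c i : UnitAddCircle)) -
    (x - (P.c i : UnitAddCircle)) = (u : UnitAddCircle) := by abel
  rw [h2] at h
  have h3 := norm_coe_le u
  calc _ = |‖x + (u : UnitAddCircle) - (P.c i : UnitAddCircle)‖ -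
      ‖x - (P.c i : UnitAddCircle)‖| := by congr 1; ring
    _ ≤ _ := h.trans h3

theorem norm_G_sub_le (i : Fin 2) (q : UnitAddCircle × UnitAddCircle) (u v : ℝ) :
    ‖P.G i (q.1 + (u : UnitAddCircle), q.2 + (v : UnitAddCircle)) - P.G i q‖ ≤ |u| + 2 * |v| := by
  refine (Complex.norm_le_abs_re_add_abs_im _).trans ?_
  simp only [G, Complex.sub_re, Complex.sub_im]
  have h1 := dl_lip' P i q.1 u
  have h2 := tent_lip q.2 v
  have h3 : |max 0 (‖q.2 + (v : UnitAddCircle)‖ - 1 / 8) - max 0 (‖q.2‖ - 1 / 8)| ≤ |v| := by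
    refine (abs_max_sub_max_le_max _ _ _ _).trans ?_
    rw [sub_self, abs_zero]
    have h := abs_norm_sub_norm_le (q.2 + (v : UnitAddCircle)) q.2
    rw [add_sub_cancel_left] at h
    refine max_le (abs_nonneg _) ?_
    calc _ = |‖q.2 + (v : UnitAddCircle)‖ - ‖q.2‖| := by congr 1; ring
      _ ≤ _ := h.trans (norm_coe_le v)
  have h4 : |P.dl i (q.1 + (u : UnitAddCircle)) + max 0 (‖q.2 + (v : UnitAddCircle)‖ - 1 / 8) -
      (P.dl i q.1 + max 0 (‖q.2‖ - 1 / 8))| ≤ |u| + |v| := by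
    calc _ = |(P.dl i (q.1 + (u : UnitAddCircle)) - P.dl i q.1) +
        (max 0 (‖q.2 + (v : UnitAddCircle)‖ - 1 / 8) - max 0 (‖q.2‖ - 1 / 8))| := by
          congr 1; ring
      _ ≤ _ := (abs_add_le _ _).trans (add_le_add h1 h3)
  have h5 : |-tent (q.2 + (v : UnitAddCircle)) - -tent q.2| ≤ |v| := by
    rw [← abs_neg]
    calc _ = |tent (q.2 + (v : UnitAddCircle)) - tent q.2| := by congr 1; ring
      _ ≤ _ := h2
  linarith

theorem continuous_G (i : Fin 2) : Continuous (P.G i) := by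
  have h1 : Continuous fun q : UnitAddCircle × UnitAddCircle =>
      P.dl i q.1 + max 0 (‖q.2‖ - 1 / 8) := by
    unfold dl
    fun_prop
  have h2 : Continuous fun q : UnitAddCircle × UnitAddCircle => - tent q.2 := by
    unfold tent
    fun_prop
  have : P.G i = fun q => ((P.dl i q.1 + max 0 (‖q.2‖ - 1 / 8) : ℝ) : ℂ) +
      ((- tent q.2 : ℝ) : ℂ) * Complex.I := by
    funext q
    apply Complex.ext <;> simp [G]
  rw [this]
  exact (Complex.continuous_ofReal.comp h1).add
    ((Complex.continuous_ofReal.comp h2).mul continuous_const)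

theorem r_bd (i : Fin 2) : 0 < P.r i ∧ P.r i < 1 / 16 := by
  have h0 := P.lo_nonneg
  have h1 := P.lo_hi 0
  have h2 := P.lo_hi 1
  have h3 := P.hi_lo
  have h4 := P.hi_lt
  unfold r
  fin_cases i <;> simp <;> constructor <;> linarith

theorem circle_norm_le (x : UnitAddCircle) : ‖x‖ ≤ 1 / 2 := by
  have := AddCircle.norm_le_half_period (1 : ℝ) (x := x) one_ne_zero
  simpa using this

theorem norm_G_le (i : Fin 2) (q : UnitAddCircle × UnitAddCircle) : ‖P.G i q‖ ≤ 1 := by
  have hx := circle_norm_le (q.1 - (P.c i : UnitAddCircle))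
  have hy := circle_norm_le q.2
  have hz := circle_norm_le (q.2 - ((1 / 4 : ℝ) : UnitAddCircle))
  have hr := r_bd P i
  have n1 := norm_nonneg (q.1 - (P.c i : UnitAddCircle))
  have n2 := norm_nonneg q.2
  have n3 := norm_nonneg (q.2 - ((1 / 4 : ℝ) : UnitAddCircle))
  have hm1 : 0 ≤ max 0 (‖q.2‖ - 1 / 8) := le_max_left _ _
  have hm2 : max 0 (‖q.2‖ - 1 / 8) ≤ 3 / 8 := max_le (by norm_num) (by linarith)
  have hre : |(P.G i q).re| ≤ 7 / 8 := by
    simp only [G, dl]
    rw [abs_le]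
    constructor <;> linarith
  have him : |(P.G i q).im| ≤ 1 / 4 := by
    simp only [G, tent]
    rw [abs_le]
    constructor <;> linarith
  have h := Complex.sq_norm (P.G i q)
  rw [Complex.normSq_apply] at h
  have h1 : (P.G i q).re * (P.G i q).re ≤ 49 / 64 := by
    rw [← abs_mul_abs_self]; nlinarith [abs_nonneg (P.G i q).re]
  have h2 : (P.G i q).im * (P.G i q).im ≤ 1 / 16 := by
    rw [← abs_mul_abs_self]; nlinarith [abs_nonneg (P.G i q).im]
  nlinarith [norm_nonneg (P.G i q)]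

/-! ### The cube root -/

theorem cb_pow (z : ℂ) : cb z ^ 3 = z := by
  unfold cb
  by_cases hz : z = 0
  · subst hz
    rw [Complex.zero_cpow (by norm_num)]
    norm_num
  · rw [← Complex.cpow_nat_mul]
    norm_num

theorem cb_one : cb 1 = 1 := by
  unfold cb
  rw [Complex.one_cpow]

theorem cb_continuousAt {z : ℂ} (hz : z ∈ Complex.slitPlane) : ContinuousAt cb z := by
  unfold cb
  exact (continuousAt_cpow_const hz)

theorem norm_cb (z : ℂ) : ‖cb z‖ ^ 3 = ‖z‖ := by
  rw [← norm_pow, cb_pow]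

/-! ### The flow on the base -/

theorem tau_nonneg (q : UnitAddCircle × UnitAddCircle) : 0 ≤ P.tau q := by
  unfold tau
  have := norm_nonneg (P.G 0 q)
  have := norm_nonneg (P.G 1 q)
  positivity

theorem tau_le (i : Fin 2) (q : UnitAddCircle × UnitAddCircle) :
    P.tau q ≤ (1 / 100) * ‖P.G i q‖ := by
  unfold tau
  have h0 := min_le_left ‖P.G 0 q‖ ‖P.G 1 q‖
  have h1 := min_le_right ‖P.G 0 q‖ ‖P.G 1 q‖
  fin_cases i
  · simp only [Fin.zero_eta]
    linarith
  · simp only [Fin.mk_one]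
    linarith

theorem tau_le' (q : UnitAddCircle × UnitAddCircle) : P.tau q ≤ 1 / 100 := by
  have := tau_le P 0 q
  have := norm_G_le P 0 q
  linarith

theorem continuous_tau : Continuous P.tau := by
  unfold tau
  exact continuous_const.mul ((continuous_G P 0).norm.min (continuous_G P 1).norm)

theorem G_mv_sub (i : Fin 2) (t : ℝ) (q : UnitAddCircle × UnitAddCircle) :
    ‖P.G i (P.mv t q) - P.G i q‖ ≤ 3 * |t| := by
  have h := norm_G_sub_le P i q (P.al * t) t
  have h1 := P.al_pos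
  have h2 := P.al_lt
  have h3 : |P.al * t| ≤ |t| := by
    rw [abs_mul, abs_of_pos h1]
    nlinarith [abs_nonneg t]
  unfold mv
  linarith

theorem tau_mv_sub (t : ℝ) (q : UnitAddCircle × UnitAddCircle) :
    |P.tau (P.mv t q) - P.tau q| ≤ (3 / 100) * |t| := by
  unfold tau
  rw [← mul_sub, abs_mul, abs_of_pos (by norm_num : (0 : ℝ) < 1 / 100)]
  have h := abs_min_sub_min_le_max ‖P.G 0 (P.mv t q)‖ ‖P.G 1 (P.mv t q)‖ ‖P.G 0 q‖ ‖P.G 1 q‖
  have h0 := (abs_norm_sub_norm_le (P.G 0 (P.mv t q)) (P.G 0 q)).trans (G_mv_sub P 0 t q)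
  have h1 := (abs_norm_sub_norm_le (P.G 1 (P.mv t q)) (P.G 1 q)).trans (G_mv_sub P 1 t q)
  have := h.trans (max_le h0 h1)
  linarith

theorem mv_zero (q : UnitAddCircle × UnitAddCircle) : P.mv 0 q = q := by
  unfold mv
  simp

theorem mv_mv (s t : ℝ) (q : UnitAddCircle × UnitAddCircle) :
    P.mv s (P.mv t q) = P.mv (s + t) q := by
  unfold mv
  simp only [Prod.mk.injEq]
  constructor
  · rw [add_assoc, ← AddCircle.coe_add]
    congr 2; ring
  · rw [add_assoc, ← AddCircle.coe_add]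
    congr 2; ring

theorem continuous_mv : Continuous fun x : ℝ × (UnitAddCircle × UnitAddCircle) => P.mv x.1 x.2 := by
  unfold mv
  have h : Continuous fun t : ℝ => (t : UnitAddCircle) := AddCircle.continuous_mk' 1
  fun_prop

/-- the quotient of the values is close to `1` -/
theorem ratio_sub_one (i : Fin 2) {t : ℝ} (q : UnitAddCircle × UnitAddCircle) (h0 : 0 ≤ t)
    (h1 : t ≤ P.tau q) (hG : P.G i q ≠ 0) :
    ‖P.G i (P.mv t q) / P.G i q - 1‖ ≤ 3 / 100 := by
  have h2 := G_mv_sub P i t q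
  rw [abs_of_nonneg h0] at h2
  have h3 := tau_le P i q
  rw [div_sub_one hG, norm_div, div_le_iff₀ (norm_pos_iff.2 hG)]
  linarith

theorem ratio_mem (i : Fin 2) {t : ℝ} (q : UnitAddCircle × UnitAddCircle) (h0 : 0 ≤ t)
    (h1 : t ≤ P.tau q) (hG : P.G i q ≠ 0) :
    P.G i (P.mv t q) / P.G i q ∈ Complex.slitPlane := by
  have h := ratio_sub_one P i q h0 h1 hG
  have := Complex.mem_slitPlane_of_norm_lt_one (z := P.G i (P.mv t q) / P.G i q - 1)
    (by linarith)
  rwa [add_sub_cancel] at this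

theorem ratio_ne (i : Fin 2) {t : ℝ} (q : UnitAddCircle × UnitAddCircle) (h0 : 0 ≤ t)
    (h1 : t ≤ P.tau q) (hG : P.G i q ≠ 0) :
    P.G i (P.mv t q) / P.G i q ≠ 0 :=
  Complex.slitPlane_ne_zero (ratio_mem P i q h0 h1 hG)

theorem norm_cb_ratio (i : Fin 2) {t : ℝ} (q : UnitAddCircle × UnitAddCircle) (h0 : 0 ≤ t)
    (h1 : t ≤ P.tau q) (hG : P.G i q ≠ 0) :
    ‖cb (P.G i (P.mv t q) / P.G i q)‖ ≤ 2 := by
  have h := ratio_sub_one P i q h0 h1 hG
  have h2 : ‖P.G i (P.mv t q) / P.G i q‖ ≤ 2 := by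
    have := norm_add_le (P.G i (P.mv t q) / P.G i q - 1) 1
    rw [sub_add_cancel, norm_one] at this
    linarith
  have h3 := norm_cb (P.G i (P.mv t q) / P.G i q)
  by_contra hc
  push Not at hc
  have h4 : (2 : ℝ) ^ 3 < ‖cb (P.G i (P.mv t q) / P.G i q)‖ ^ 3 :=
    pow_lt_pow_left₀ hc (by norm_num) (by norm_num)
  linarith

theorem cb_ne {z : ℂ} (hz : z ≠ 0) : cb z ≠ 0 := by
  intro h
  apply hz
  rw [← cb_pow z, h]
  norm_num

/-! ### The map `psi` -/

theorem psi_mem {p : (UnitAddCircle × UnitAddCircle) × (Fin 2 → ℂ)}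
    (hp : ∀ i, p.2 i ^ 3 = P.G i p.1) {t : ℝ} (h0 : 0 ≤ t) (h1 : t ≤ P.tau p.1) :
    ∀ i, (P.psi t p).2 i ^ 3 = P.G i (P.psi t p).1 := by
  intro i
  unfold psi
  simp only
  by_cases hG : P.G i p.1 = 0
  · have ht : t = 0 := by
      have := tau_le P i p.1
      rw [hG, norm_zero, mul_zero] at this
      linarith
    have hw : p.2 i = 0 := by
      have := hp i
      rw [hG] at this
      exact pow_eq_zero_iff (by norm_num) |>.1 this
    rw [ht, mv_zero, hw, hG]
    simp
  · rw [mul_pow, cb_pow, hp i, mul_div_cancel₀ _ hG]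

theorem psi_zero {p : (UnitAddCircle × UnitAddCircle) × (Fin 2 → ℂ)}
    (hp : ∀ i, p.2 i ^ 3 = P.G i p.1) : P.psi 0 p = p := by
  unfold psi
  rw [mv_zero]
  refine Prod.ext rfl ?_
  funext i
  simp only
  by_cases hG : P.G i p.1 = 0
  · have hw : p.2 i = 0 := by
      have := hp i
      rw [hG] at this
      exact pow_eq_zero_iff (by norm_num) |>.1 this
    rw [hw, zero_mul]
  · rw [div_self hG, cb_one, mul_one]

/-- the map on the surface -/
noncomputable def Phi (x : I × P.Surf) : P.Surf :=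
  ⟨P.psi ((x.1 : ℝ) * P.tau x.2.1.1) x.2.1,
    psi_mem P x.2.2 (mul_nonneg x.1.2.1 (tau_nonneg P _))
      (mul_le_of_le_one_left (tau_nonneg P _) x.1.2.2)⟩

theorem continuous_val : Continuous fun p : P.Surf => p.1 := continuous_subtype_val

theorem continuous_Phi : Continuous (Phi P) := by
  refine Continuous.subtype_mk ?_ _
  have hval : Continuous fun x : I × P.Surf => x.2.1 := (continuous_val P).comp continuous_snd
  have ht : Continuous fun x : I × P.Surf => (x.1 : ℝ) * P.tau x.2.1.1 :=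
    (continuous_subtype_val.comp continuous_fst).mul
      ((continuous_tau P).comp (continuous_fst.comp hval))
  have hmv : Continuous fun x : I × P.Surf => P.mv ((x.1 : ℝ) * P.tau x.2.1.1) x.2.1.1 :=
    (continuous_mv P).comp (ht.prodMk (continuous_fst.comp hval))
  unfold psi
  refine hmv.prodMk (continuous_pi fun i => ?_)
  have hw : Continuous fun x : I × P.Surf => x.2.1.2 i :=
    (continuous_apply i).comp (continuous_snd.comp hval)
  have hG1 : Continuous fun x : I × P.Surf => P.G i x.2.1.1 :=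
    (continuous_G P i).comp (continuous_fst.comp hval)
  have hG2 : Continuous fun x : I × P.Surf =>
      P.G i (P.mv ((x.1 : ℝ) * P.tau x.2.1.1) x.2.1.1) := (continuous_G P i).comp hmv
  rw [continuous_iff_continuousAt]
  intro x
  have hx0 : ∀ x : I × P.Surf, 0 ≤ (x.1 : ℝ) * P.tau x.2.1.1 :=
    fun x => mul_nonneg x.1.2.1 (tau_nonneg P _)
  have hx1 : ∀ x : I × P.Surf, (x.1 : ℝ) * P.tau x.2.1.1 ≤ P.tau x.2.1.1 :=
    fun x => mul_le_of_le_one_left (tau_nonneg P _) x.1.2.2
  by_cases hG : P.G i x.2.1.1 = 0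
  · have hz : ∀ y : I × P.Surf, P.G i y.2.1.1 = 0 → y.2.1.2 i = 0 := by
      intro y hy
      have := y.2.2 i
      rw [hy] at this
      exact pow_eq_zero_iff (by norm_num) |>.1 this
    have hx : (fun a : I × P.Surf => a.2.1.2 i *
        cb (P.G i (P.mv ((a.1 : ℝ) * P.tau a.2.1.1) a.2.1.1) / P.G i a.2.1.1)) x = 0 := by
      have h := hz x hG
      simp only [h, zero_mul]
    have key : Tendsto (fun a : I × P.Surf => a.2.1.2 i *
        cb (P.G i (P.mv ((a.1 : ℝ) * P.tau a.2.1.1) a.2.1.1) / P.G i a.2.1.1)) (𝓝 x) (𝓝 0) := ?_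
    · unfold ContinuousAt
      rw [hx]
      exact key
    refine squeeze_zero_norm (a := fun y : I × P.Surf => 2 * ‖y.2.1.2 i‖) ?_ ?_
    · intro y
      rw [norm_mul]
      by_cases hy : P.G i y.2.1.1 = 0
      · rw [hz y hy]
        simp
      · have := norm_cb_ratio P i y.2.1.1 (hx0 y) (hx1 y) hy
        nlinarith [norm_nonneg (y.2.1.2 i)]
    · have : Continuous fun y : I × P.Surf => 2 * ‖y.2.1.2 i‖ := continuous_const.mul hw.norm
      have h := this.tendsto x
      rwa [hz x hG, norm_zero, mul_zero] at h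
  · refine hw.continuousAt.mul (ContinuousAt.comp (g := cb)
      (f := fun x : I × P.Surf => P.G i (P.mv ((x.1 : ℝ) * P.tau x.2.1.1) x.2.1.1) /
        P.G i x.2.1.1) ?_ ?_)
    · exact cb_continuousAt (ratio_mem P i x.2.1.1 (hx0 x) (hx1 x) hG)
    · exact hG2.continuousAt.div hG1.continuousAt hG

/-! ### Compactness -/

theorem isClosed_surf : IsClosed {p : (UnitAddCircle × UnitAddCircle) × (Fin 2 → ℂ) |
    ∀ i, p.2 i ^ 3 = P.G i p.1} := by
  rw [Set.ofPred_forall]
  refine isClosed_iInter fun i => isClosed_eq ?_ ?_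
  · exact ((continuous_apply i).comp continuous_snd).pow 3
  · exact (continuous_G P i).comp continuous_fst

theorem surf_compact : CompactSpace P.Surf := by
  have hc : IsCompact {p : (UnitAddCircle × UnitAddCircle) × (Fin 2 → ℂ) |
      ∀ i, p.2 i ^ 3 = P.G i p.1} := by
    refine IsCompact.of_isClosed_subset
      (isCompact_univ.prod (isCompact_closedBall (0 : Fin 2 → ℂ) 1)) (isClosed_surf P) ?_
    intro p hp
    refine ⟨mem_univ _, ?_⟩
    rw [mem_closedBall_zero_iff, pi_norm_le_iff_of_nonneg zero_le_one]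
    intro i
    have h1 : ‖p.2 i‖ ^ 3 ≤ 1 := by
      rw [← norm_pow, hp i]
      exact norm_G_le P i _
    by_contra hc
    push Not at hc
    have := one_lt_pow₀ hc (by norm_num : (3 : ℕ) ≠ 0)
    linarith
  exact isCompact_iff_compactSpace.1 hc

theorem surf_t2 : T2Space P.Surf :=
  inferInstanceAs (T2Space {p : (UnitAddCircle × UnitAddCircle) × (Fin 2 → ℂ) //
    ∀ i, p.2 i ^ 3 = P.G i p.1})

theorem surf_secondCountable : SecondCountableTopology P.Surf :=
  inferInstanceAs (SecondCountableTopology {p : (UnitAddCircle × UnitAddCircle) × (Fin 2 → ℂ) //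
    ∀ i, p.2 i ^ 3 = P.G i p.1})

/-! ### Bijectivity -/

theorem Phi_injective (s : I) : Function.Injective fun p => Phi P (s, p) := by
  intro p p' h
  have h' : P.psi ((s : ℝ) * P.tau p.1.1) p.1 = P.psi ((s : ℝ) * P.tau p'.1.1) p'.1 :=
    congrArg Subtype.val h
  have h1 : P.mv ((s : ℝ) * P.tau p.1.1) p.1.1 = P.mv ((s : ℝ) * P.tau p'.1.1) p'.1.1 :=
    congrArg Prod.fst h'
  set a := (s : ℝ) * P.tau p.1.1 with ha
  set b := (s : ℝ) * P.tau p'.1.1 with hb
  have h2 : p'.1.1 = P.mv (a - b) p.1.1 := by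
    have := congrArg (P.mv (-b)) h1
    rw [mv_mv, mv_mv, neg_add_cancel, mv_zero] at this
    rw [← this]
    congr 1; ring
  have h3 : |b - a| ≤ (3 / 100) * |a - b| := by
    have := tau_mv_sub P (a - b) p.1.1
    rw [← h2] at this
    rw [ha, hb, ← mul_sub, abs_mul, abs_of_nonneg s.2.1]
    calc (s : ℝ) * |P.tau p'.1.1 - P.tau p.1.1| ≤ 1 * |P.tau p'.1.1 - P.tau p.1.1| :=
          mul_le_mul_of_nonneg_right s.2.2 (abs_nonneg _)
      _ ≤ _ := by rw [one_mul]; exact this
  have h4 : a - b = 0 := by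
    rw [abs_sub_comm] at h3
    have := abs_nonneg (a - b)
    exact abs_eq_zero.1 (by linarith)
  rw [h4, mv_zero] at h2
  have hab : a = b := by linarith
  refine Subtype.ext (Prod.ext h2.symm ?_)
  funext i
  have h5 : p.1.2 i * cb (P.G i (P.mv a p.1.1) / P.G i p.1.1) =
      p'.1.2 i * cb (P.G i (P.mv b p'.1.1) / P.G i p'.1.1) :=
    congrFun (congrArg Prod.snd h') i
  rw [← hab, h2] at h5
  by_cases hG : P.G i p.1.1 = 0
  · have w1 := p.2 i
    have w2 := p'.2 i
    rw [hG] at w1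
    rw [h2, hG] at w2
    rw [pow_eq_zero_iff (by norm_num) |>.1 w1, pow_eq_zero_iff (by norm_num) |>.1 w2]
  · refine mul_right_cancel₀ (cb_ne (ratio_ne P i p.1.1 ?_ ?_ hG)) h5
    · exact mul_nonneg s.2.1 (tau_nonneg P _)
    · exact mul_le_of_le_one_left (tau_nonneg P _) s.2.2

theorem Phi_surjective (s : I) : Function.Surjective fun p => Phi P (s, p) := by
  intro p'
  have hcont : ContinuousOn (fun v : ℝ => v - (s : ℝ) * P.tau (P.mv (-v) p'.1.1)) (Icc 0 1) := by
    refine Continuous.continuousOn ?_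
    refine continuous_id.sub (continuous_const.mul ((continuous_tau P).comp ?_))
    exact (continuous_mv P).comp (continuous_neg.prodMk continuous_const)
  have h0 : (0 : ℝ) ∈ Icc ((fun v : ℝ => v - (s : ℝ) * P.tau (P.mv (-v) p'.1.1)) 0)
      ((fun v : ℝ => v - (s : ℝ) * P.tau (P.mv (-v) p'.1.1)) 1) := by
    constructor
    · have := mul_nonneg s.2.1 (tau_nonneg P (P.mv (-0) p'.1.1))
      simp only
      linarith
    · have h1 := tau_le' P (P.mv (-1) p'.1.1)
      have h2 := mul_le_of_le_one_left (tau_nonneg P (P.mv (-1) p'.1.1)) s.2.2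
      simp only
      linarith
  obtain ⟨v, -, hv⟩ := intermediate_value_Icc (zero_le_one) hcont h0
  simp only at hv
  set q := P.mv (-v) p'.1.1 with hq
  have hv' : v = (s : ℝ) * P.tau q := by linarith
  have hq' : P.mv v q = p'.1.1 := by rw [hq, mv_mv, add_neg_cancel, mv_zero]
  have hv0 : 0 ≤ v := by rw [hv']; exact mul_nonneg s.2.1 (tau_nonneg P _)
  have hv1 : v ≤ P.tau q := by rw [hv']; exact mul_le_of_le_one_left (tau_nonneg P _) s.2.2
  by_cases hz : ∃ i, P.G i q = 0
  · obtain ⟨i, hi⟩ := hz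
    have ht : P.tau q = 0 := by
      have h1 := tau_le P i q
      rw [hi, norm_zero, mul_zero] at h1
      exact le_antisymm h1 (tau_nonneg P q)
    have hv2 : v = 0 := by rw [hv', ht, mul_zero]
    have hqp : q = p'.1.1 := by rw [← hq', hv2, mv_zero]
    refine ⟨p', ?_⟩
    refine Subtype.ext ?_
    show P.psi ((s : ℝ) * P.tau p'.1.1) p'.1 = p'.1
    rw [← hqp, ht, mul_zero]
    exact psi_zero P p'.2
  · push Not at hz
    have hw : ∀ i, (p'.1.2 i / cb (P.G i p'.1.1 / P.G i q)) ^ 3 = P.G i q := by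
      intro i
      have hne : P.G i p'.1.1 / P.G i q ≠ 0 := by
        have := ratio_ne P i q hv0 hv1 (hz i)
        rwa [hq'] at this
      rw [div_pow, cb_pow, p'.2 i]
      have hG : P.G i p'.1.1 ≠ 0 := fun h => hne (by rw [h, zero_div])
      field_simp
    refine ⟨⟨(q, fun i => p'.1.2 i / cb (P.G i p'.1.1 / P.G i q)), hw⟩, ?_⟩
    refine Subtype.ext ?_
    show P.psi ((s : ℝ) * P.tau q) (q, fun i => p'.1.2 i / cb (P.G i p'.1.1 / P.G i q)) = p'.1
    rw [← hv']
    unfold psi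
    refine Prod.ext hq' ?_
    funext i
    simp only
    rw [hq']
    refine div_mul_cancel₀ _ (cb_ne ?_)
    have := ratio_ne P i q hv0 hv1 (hz i)
    rwa [hq'] at this

theorem exists_isotopy : ∃ F : IdIsotopy P.Surf,
    ∀ (t : I) (p : P.Surf), (F.toMap (t, p)).1 = P.psi (t * P.tau p.1.1) p.1 := by
  have := surf_compact P
  have := surf_t2 P
  refine ⟨⟨⟨Phi P, continuous_Phi P⟩, ?_, ?_⟩, fun t p => rfl⟩
  · intro x
    refine Subtype.ext ?_
    show P.psi (((0 : I) : ℝ) * P.tau x.1.1) x.1 = x.1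
    rw [show ((0 : I) : ℝ) = 0 from rfl, zero_mul]
    exact psi_zero P x.2
  · intro t
    have hc : Continuous fun x => Phi P (t, x) :=
      (continuous_Phi P).comp (continuous_const.prodMk continuous_id)
    exact isHomeomorph_iff_continuous_bijective.2 ⟨hc, Phi_injective P t, Phi_surjective P t⟩

end Pool.Agent.helper9.Rot
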